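import Pool.Agent.helper17.RX.Spec

/-!
# Row rx:VSX, project RX (MP_f42afa_pr): random sets with decoupling and rectangles, explicit constants (after helper79/TH/VSG)
-/

set_option autoImplicit false

namespace TP.TW

open DP MeasureTheory Finset

private theorem VSX_prob : IsProbabilityMeasure P1 := by
  unfold P1
  infer_instance

private theorem VSX_nonneg (F : Set (V → Bool)) : 0 ≤ Pr F := measureReal_nonneg

private theorem VSX_mono {F G : Set (V → Bool)} (h : F ⊆ G) : Pr F ≤ Pr G := by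
  have := VSX_prob
  exact measureReal_mono h

private theorem VSX_le_one (F : Set (V → Bool)) : Pr F ≤ 1 := by
  have := VSX_prob
  exact measureReal_le_one

private theorem VSX_univ : Pr (Set.univ : Set (V → Bool)) = 1 := by
  have := VSX_prob
  exact probReal_univ

private theorem VSX_biUnion {κ : Type} (s : Finset κ) (F : κ → Set (V → Bool)) (G : Set (V → Bool))
    (h : ∀ β ∈ G, ∃ i ∈ s, β ∈ F i) : Pr G ≤ ∑ i ∈ s, Pr (F i) := by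
  have := VSX_prob
  refine (VSX_mono (G := ⋃ i ∈ s, F i) ?_).trans (measureReal_biUnion_finset_le s F)
  intro β hβ
  obtain ⟨i, hi, h'⟩ := h β hβ
  exact Set.mem_iUnion₂.2 ⟨i, hi, h'⟩

/-- The event of the crossing depends on finitely many coins. -/
private theorem VSX_CD (o k : Bool) (S : (V → Bool) → Finset V) (Λ : Finset V)
    (hS : ∀ β β' : V → Bool, (∀ v ∈ Λ, β v = β' v) → S β = S β') (a b d e : ℤ) :
    CD {β | crs o (col β) k (til (S β)) a b d e} (Λ ∪ rf a b d e) := by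
  intro β β' h
  have h1 : S β = S β' := hS β β' fun v hv => h v (Finset.mem_union_left _ hv)
  have h2 : ∀ v ∈ rect a b d e, col β v = col β' v := by
    intro v hv
    refine h (br v) (Finset.mem_union_right _ ?_)
    unfold rf
    refine Finset.mem_image.2 ⟨v, ?_, rfl⟩
    exact Finset.mem_product.2 ⟨Finset.mem_Icc.2 ⟨hv.1, hv.2.1⟩, Finset.mem_Icc.2 ⟨hv.2.2.1, hv.2.2.2⟩⟩
  have h3 : ∀ S : Set V, crs o (col β) k S a b d e ↔ crs o (col β') k S a b d e := by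
    intro S
    unfold crs
    refine exists_congr fun u => exists_congr fun v => and_congr Iff.rfl ?_
    exact Conn.congr fun w hw => h2 w hw.1
  show crs o (col β) k (til (S β)) a b d e ↔ crs o (col β') k (til (S β')) a b d e
  rw [h1]
  exact h3 _

private theorem VSX_core (shi : SHI_stmt) (shp : SHP_stmt) (R : ℕ) (C1 : ℝ) (hC1 : 0 < C1)
    (plr : ∀ (U : Finset V) (p : V → ℝ) (ℓ : ℝ), 0 ≤ ℓ → (∀ z ∈ U, 0 ≤ p z ∧ p z ≤ 1) →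
      ∑ z ∈ U, p z * (Real.log (1 / p z) + ℓ) ^ R ≤ C1 * (∑ z ∈ U, p z + 1) * (Real.log (#U + 3) + ℓ) ^ R)
    (C0 : ℝ) (o k : Bool) (S : (V → Bool) → Finset V) (Ω : Finset V) (w : V → ℝ) (K : ℝ) (hRS : RS S Ω w R K)
    (a b d e a' b' d' e' : ℤ) (s t : ℕ)
    (hm : ∀ (c : V → Bool) (W : Set V) (i j : ℤ), 0 ≤ i → i ≤ s → 0 ≤ j → j ≤ s →
      crs o c k W (a + 2 * i) (b + 2 * i) (d + 2 * j) (e + 2 * j) → crs o c k W a' b' d' e')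
    (hr : ∀ z ∈ rf a' b' d' e', ∀ i j : ℤ, 0 ≤ i → i ≤ s → 0 ≤ j → j ≤ s →
      a - t ≤ z.1 - 2 * i ∧ z.1 - 2 * i ≤ b + t ∧ d - t ≤ z.2 - 2 * j ∧ z.2 - 2 * j ≤ e + t)
    (Z : (V → Bool) → Finset V) (hZ1 : ∀ β, Z β ⊆ rf a' b' d' e') (hZ2 : ∀ z, CD {β | z ∈ Z β} (rf a' b' d' e'))
    (hZ3 : ∀ (β : V → Bool) (S : Finset V), crs o (col β) k (til S) a' b' d' e' → ∃ z ∈ Z β, z ∈ S)
    (hZ4 : ∑ z ∈ rf a' b' d' e', Pr {β | z ∈ Z β} ≤ C0) :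
    ((s : ℝ) + 1) ^ 2 * Pr {β | crs o (col β) k (til (S β)) a b d e} ≤
      K * (∑ v ∈ nr Ω a b d e t, w v) * (C1 * (C0 + 1) *
        (Real.log (#(rf a' b' d' e') + 3) + Real.log (((s + 1) ^ 2 : ℕ) + #(rf a' b' d' e') + 3)) ^ R) := by
  obtain ⟨r1, r2, ⟨Λ0, r3⟩, r4, r5, r6, r7⟩ := hRS
  obtain ⟨P, hP⟩ : ∃ P, P = Pr {β | crs o (col β) k (til (S β)) a b d e} := ⟨_, rfl⟩
  obtain ⟨U, hU⟩ : ∃ U, U = rf a' b' d' e' := ⟨_, rfl⟩
  obtain ⟨W, hW⟩ : ∃ W, W = ∑ v ∈ nr Ω a b d e t, w v := ⟨_, rfl⟩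
  obtain ⟨p, hp⟩ : ∃ p : V → ℝ, p = fun z => Pr {β | z ∈ Z β} := ⟨_, rfl⟩
  rw [← hP, ← hW]
  rw [← hU] at hr hZ1 hZ2 hZ4 ⊢
  have hpz : ∀ z, Pr {β | z ∈ Z β} = p z := fun z => by rw [hp]
  have hp0 : ∀ z, 0 ≤ p z := fun z => by rw [← hpz]; exact VSX_nonneg _
  have hp1 : ∀ z, p z ≤ 1 := fun z => by rw [← hpz]; exact VSX_le_one _
  have hZ4' : ∑ z ∈ U, p z ≤ C0 := by
    refine le_trans (le_of_eq (Finset.sum_congr rfl fun z _ => (hpz z).symm)) hZ4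
  obtain ⟨g, hg⟩ : ∃ g : ℕ × ℕ → ℤ × ℤ, g = fun x => (2 * (x.1 : ℤ), 2 * (x.2 : ℤ)) := ⟨_, rfl⟩
  have hgi : Function.Injective g := by
    rintro ⟨x, y⟩ ⟨z, w⟩ h
    rw [hg] at h
    simp only [Prod.mk.injEq] at h ⊢
    omega
  obtain ⟨T, hTd⟩ : ∃ T : Finset (ℤ × ℤ), T = (range (s + 1) ×ˢ range (s + 1)).image g := ⟨_, rfl⟩
  have hTc : #T = (s + 1) ^ 2 := by
    rw [hTd, Finset.card_image_of_injective _ hgi, Finset.card_product, Finset.card_range, sq]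
  have hTm : ∀ τ ∈ T, ∃ i j : ℤ, 0 ≤ i ∧ i ≤ s ∧ 0 ≤ j ∧ j ≤ s ∧ τ = (2 * i, 2 * j) := by
    intro τ hτ
    rw [hTd] at hτ
    obtain ⟨⟨x, y⟩, hx, rfl⟩ := Finset.mem_image.1 hτ
    rw [Finset.mem_product, Finset.mem_range, Finset.mem_range] at hx
    exact ⟨x, y, by omega, by omega, by omega, by omega, by rw [hg]⟩
  obtain ⟨Q, hQ⟩ : ∃ Q : Finset V, Q = Icc (a - t) (b + t) ×ˢ Icc (d - t) (e + t) := ⟨_, rfl⟩
  have hQm : ∀ v : V, v ∈ Q ↔ a - t ≤ v.1 ∧ v.1 ≤ b + t ∧ d - t ≤ v.2 ∧ v.2 ≤ e + t := by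
    intro v
    rw [hQ, Finset.mem_product, Finset.mem_Icc, Finset.mem_Icc]
    constructor
    · rintro ⟨⟨h1, h2⟩, h3, h4⟩
      exact ⟨h1, h2, h3, h4⟩
    · rintro ⟨h1, h2, h3, h4⟩
      exact ⟨⟨h1, h2⟩, h3, h4⟩
  have hrange : ∀ z ∈ U, ∀ τ ∈ T, ((z.1 - τ.1, z.2 - τ.2) : V) ∈ Q := by
    intro z hz τ hτ
    obtain ⟨i, j, hi0, hi, hj0, hj, rfl⟩ := hTm τ hτ
    exact (hQm _).2 (hr z hz i j hi0 hi hj0 hj)
  have hQW : ∑ v ∈ Q, w v = W := by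
    rw [hW]
    symm
    refine Finset.sum_subset ?_ ?_
    · intro v hv
      unfold nr at hv
      exact (hQm v).2 (Finset.mem_filter.1 hv).2
    · intro v hv hv2
      refine r5 v fun h => hv2 ?_
      unfold nr
      exact Finset.mem_filter.2 ⟨h, (hQm v).1 hv⟩
  have hW0 : 0 ≤ W := by
    rw [hW]
    exact Finset.sum_nonneg fun v _ => r4 v
  -- one translate
  have h1 : ∀ τ ∈ T, P ≤ ∑ z ∈ U,
      Pr ({β | z ∈ Z β} ∩ {β | ((z.1 - τ.1, z.2 - τ.2) : V) ∈ S (fun v => β (v.1 + τ.1, v.2 + τ.2))}) := by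
    intro τ hτ
    have h2 := shp _ _ (VSX_CD o k S Λ0 r3 a b d e) τ.1 τ.2
    rw [hP, ← h2]
    refine VSX_biUnion U (fun z => {β | z ∈ Z β} ∩
      {β | ((z.1 - τ.1, z.2 - τ.2) : V) ∈ S (fun v => β (v.1 + τ.1, v.2 + τ.2))}) _ ?_
    intro β hβ
    obtain ⟨i, j, hi0, hi, hj0, hj, rfl⟩ := hTm τ hτ
    have h3 : crs o (col fun v => β (v.1 + 2 * i, v.2 + 2 * j)) k
      (til (S fun v => β (v.1 + 2 * i, v.2 + 2 * j))) a b d e := hβ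
    have h4 := (shi o k β (S fun v => β (v.1 + 2 * i, v.2 + 2 * j)) a b d e i j).1 h3
    have h5 := hm _ _ i j hi0 hi hj0 hj h4
    obtain ⟨z, hz1, hz2⟩ := hZ3 β _ h5
    refine ⟨z, hZ1 β hz1, hz1, ?_⟩
    unfold shf at hz2
    obtain ⟨v, hv1, hv2⟩ := Finset.mem_image.1 hz2
    show ((z.1 - 2 * i, z.2 - 2 * j) : V) ∈ S (fun v => β (v.1 + 2 * i, v.2 + 2 * j))
    have h6 : ((z.1 - 2 * i, z.2 - 2 * j) : V) = v := by
      rw [← hv2]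
      ext
      · show v.1 + 2 * i - 2 * i = v.1
        ring
      · show v.2 + 2 * j - 2 * j = v.2
        ring
    rw [h6]
    exact hv1
  have h2 : ((s : ℝ) + 1) ^ 2 * P ≤ ∑ τ ∈ T, ∑ z ∈ U,
      Pr ({β | z ∈ Z β} ∩ {β | ((z.1 - τ.1, z.2 - τ.2) : V) ∈ S (fun v => β (v.1 + τ.1, v.2 + τ.2))}) := by
    have h3 := Finset.sum_le_sum h1
    rw [Finset.sum_const, hTc, nsmul_eq_mul] at h3
    push_cast at h3
    exact h3
  rw [Finset.sum_comm] at h2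
  obtain ⟨ℓ, hℓ⟩ : ∃ ℓ : ℝ, ℓ = Real.log (((s + 1) ^ 2 : ℕ) + #U + 3) := ⟨_, rfl⟩
  have hU0 : (0 : ℝ) ≤ #U := Nat.cast_nonneg _
  have hs0 : (0 : ℝ) ≤ (((s + 1) ^ 2 : ℕ) : ℝ) := Nat.cast_nonneg _
  have hℓ0 : 0 ≤ ℓ := by
    rw [hℓ]
    exact Real.log_nonneg (by linarith)
  have h3 : ∀ z ∈ U, ∑ τ ∈ T,
      Pr ({β | z ∈ Z β} ∩ {β | ((z.1 - τ.1, z.2 - τ.2) : V) ∈ S (fun v => β (v.1 + τ.1, v.2 + τ.2))}) ≤
        K * W * (p z * (Real.log (1 / p z) + ℓ) ^ R) := by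
    intro z hz
    have h4 := r7 T Q U z {β | z ∈ Z β} (hZ2 z) (fun v hv τ hτ => by
      rw [Finset.insert_eq_self.2 hz] at hv
      exact hrange v hv τ hτ)
    rw [hpz, hQW, hTc, ← hℓ] at h4
    refine h4.trans (le_of_eq ?_)
    ring
  have h4 := plr U p ℓ hℓ0 (fun z _ => ⟨hp0 z, hp1 z⟩)
  have h5 : 0 ≤ Real.log ((#U : ℝ) + 3) := Real.log_nonneg (by linarith)
  have h6 : 0 ≤ K * W := mul_nonneg r6 hW0
  rw [← hℓ]
  calc ((s : ℝ) + 1) ^ 2 * P ≤ _ := h2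
    _ ≤ ∑ z ∈ U, K * W * (p z * (Real.log (1 / p z) + ℓ) ^ R) := Finset.sum_le_sum h3
    _ = K * W * ∑ z ∈ U, p z * (Real.log (1 / p z) + ℓ) ^ R := by rw [Finset.mul_sum]
    _ ≤ K * W * (C1 * (∑ z ∈ U, p z + 1) * (Real.log (#U + 3) + ℓ) ^ R) := mul_le_mul_of_nonneg_left h4 h6
    _ ≤ K * W * (C1 * (C0 + 1) * (Real.log (#U + 3) + ℓ) ^ R) := by
        refine mul_le_mul_of_nonneg_left ?_ h6
        refine mul_le_mul_of_nonneg_right ?_ (pow_nonneg (by linarith) R)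
        exact mul_le_mul_of_nonneg_left (by linarith) hC1.le

/-- Small scales. -/
private theorem VSX_small (R : ℕ) (o k : Bool) (S : (V → Bool) → Finset V) (Ω : Finset V) (w : V → ℝ) (K : ℝ)
    (hRS : RS S Ω w R K) (a b d e : ℤ) (t : ℕ) (ht : 1 ≤ t) :
    Pr {β | crs o (col β) k (til (S β)) a b d e} ≤ K * Real.log 4 ^ R * ∑ v ∈ nr Ω a b d e t, w v := by
  obtain ⟨r1, r2, -, r4, r5, r6, r7⟩ := hRS
  have h1 : Pr {β | crs o (col β) k (til (S β)) a b d e} ≤ ∑ v ∈ nr Ω a b d e t, Pr {β | v ∈ S β} := by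
    refine VSX_biUnion _ (fun v => {β | v ∈ S β}) _ ?_
    intro β hβ
    obtain ⟨u, v, -, h2⟩ := hβ
    have h3 : u ∈ rect a b d e ∩ til (S β) := h2.1.1
    have h4 : br u ∈ S β := h3.2
    have h6 : a ≤ u.1 ∧ u.1 ≤ b ∧ d ≤ u.2 ∧ u.2 ≤ e := h3.1
    have h7 := br_fst u
    have h8 := br_snd u
    refine ⟨br u, ?_, h4⟩
    unfold nr
    exact Finset.mem_filter.2 ⟨r2 β h4, by omega⟩
  refine h1.trans ?_
  rw [Finset.mul_sum]
  refine Finset.sum_le_sum fun v _ => ?_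
  have h2 := r7 {((0 : ℤ), (0 : ℤ))} {v} ∅ v Set.univ (fun _ _ _ => Iff.rfl) (fun x hx τ hτ => by
    rw [Finset.mem_insert] at hx
    rw [Finset.mem_singleton] at hτ
    rcases hx with hx | hx
    · rw [hx, hτ, Finset.mem_singleton]
      ext
      · show v.1 - 0 = v.1
        ring
      · show v.2 - 0 = v.2
        ring
    · exact absurd hx (Finset.notMem_empty _))
  rw [Finset.sum_singleton, Finset.sum_singleton, VSX_univ, Finset.card_singleton, Finset.card_empty] at h2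
  have h3 : (Set.univ ∩ {β : V → Bool | ((v.1 - (0 : ℤ), v.2 - (0 : ℤ)) : V) ∈
      S (fun u => β (u.1 + (0 : ℤ), u.2 + (0 : ℤ)))}) = {β | v ∈ S β} := by
    rw [Set.univ_inter]
    ext β
    show ((v.1 - (0 : ℤ), v.2 - (0 : ℤ)) : V) ∈ S (fun u => β (u.1 + (0 : ℤ), u.2 + (0 : ℤ))) ↔ v ∈ S β
    have h4 : ((v.1 - (0 : ℤ), v.2 - (0 : ℤ)) : V) = v := by
      ext
      · show v.1 - 0 = v.1
        ring
      · show v.2 - 0 = v.2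
        ring
    have h5 : (fun u : V => β (u.1 + (0 : ℤ), u.2 + (0 : ℤ))) = β := by
      funext u
      rw [add_zero, add_zero]
    rw [h4, h5]
  have h4 : Pr {β | v ∈ S β} ≤ K * 1 * (Real.log (1 / 1) + Real.log (((1 : ℕ) : ℝ) + ((0 : ℕ) : ℝ) + 3)) ^ R * w v := by
    rw [← h3]
    exact h2
  refine h4.trans (le_of_eq ?_)
  have h5 : (((1 : ℕ) : ℝ) + ((0 : ℕ) : ℝ) + 3) = 4 := by norm_num
  rw [h5, div_one, Real.log_one, zero_add, mul_one]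

private theorem VSX_logt (t : ℕ) (ht : 1 ≤ t) : 1 ≤ Real.log ((t : ℝ) + 2) := by
  have h1 : (1 : ℝ) ≤ t := by exact_mod_cast ht
  rw [Real.le_log_iff_exp_le (by linarith)]
  have := Real.exp_one_lt_d9
  linarith

private theorem VSX_log4 (t R : ℕ) (ht : 1 ≤ t) : Real.log 4 ^ R ≤ 2 ^ R * Real.log ((t : ℝ) + 2) ^ R := by
  have h1 : (1 : ℝ) ≤ t := by exact_mod_cast ht
  rw [← mul_pow]
  refine pow_le_pow_left₀ (Real.log_nonneg (by norm_num)) ?_ R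
  have h2 : Real.log 4 = 2 * Real.log 2 := by
    rw [show (4 : ℝ) = 2 ^ 2 by norm_num, Real.log_pow]
    norm_num
  rw [h2]
  refine mul_le_mul_of_nonneg_left (Real.log_le_log (by norm_num) (by linarith)) (by norm_num)

private theorem VSX_smallfin (P W L C K l4 lg r2 : ℝ) (t : ℕ) (ht : 1 ≤ t) (hL : (t : ℝ) ≤ L) (hC : L ^ 2 * r2 ≤ C)
    (hK : 0 ≤ K) (hW : 0 ≤ W) (hlg : 0 ≤ lg) (hl4 : 0 ≤ l4) (h4 : l4 ≤ r2 * lg) (h : P ≤ K * l4 * W) :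
    P ≤ C * K * lg * W / (t : ℝ) ^ 2 := by
  have ht1 : (1 : ℝ) ≤ t := by exact_mod_cast ht
  have ht0 : (0 : ℝ) < (t : ℝ) ^ 2 := by positivity
  rw [le_div_iff₀ ht0]
  have h1 : (t : ℝ) ^ 2 ≤ L ^ 2 := pow_le_pow_left₀ (by linarith) hL 2
  have hKW : 0 ≤ K * W := mul_nonneg hK hW
  have hx : 0 ≤ K * l4 * W := mul_nonneg (mul_nonneg hK hl4) hW
  calc P * (t : ℝ) ^ 2 ≤ (K * l4 * W) * (t : ℝ) ^ 2 := mul_le_mul_of_nonneg_right h ht0.le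
    _ ≤ (K * l4 * W) * L ^ 2 := mul_le_mul_of_nonneg_left h1 hx
    _ = K * W * L ^ 2 * l4 := by ring
    _ ≤ K * W * L ^ 2 * (r2 * lg) := mul_le_mul_of_nonneg_left h4 (mul_nonneg hKW (sq_nonneg _))
    _ = (L ^ 2 * r2) * (K * W * lg) := by ring
    _ ≤ C * (K * W * lg) := mul_le_mul_of_nonneg_right hC (mul_nonneg hKW hlg)
    _ = C * K * lg * W := by ring

private theorem VSX_fin (P W K D x lg r11 C : ℝ) (s t : ℕ) (ht : 1 ≤ t) (hs : t ≤ 16 * (s + 1)) (hW : 0 ≤ W)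
    (hK : 0 ≤ K) (hP : 0 ≤ P) (hD : 0 ≤ D) (hlg : 0 ≤ lg) (hx : x ≤ r11 * lg) (hC : 256 * (D * r11) ≤ C)
    (h : ((s : ℝ) + 1) ^ 2 * P ≤ K * W * (D * x)) :
    P ≤ C * K * lg * W / (t : ℝ) ^ 2 := by
  have ht1 : (1 : ℝ) ≤ t := by exact_mod_cast ht
  have ht0 : (0 : ℝ) < (t : ℝ) ^ 2 := by positivity
  rw [le_div_iff₀ ht0]
  have h1 : (t : ℝ) ≤ 16 * ((s : ℝ) + 1) := by exact_mod_cast hs
  have h2 : (t : ℝ) ^ 2 ≤ (16 * ((s : ℝ) + 1)) ^ 2 := pow_le_pow_left₀ (Nat.cast_nonneg _) h1 2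
  have hKW : 0 ≤ K * W := mul_nonneg hK hW
  have h3 : K * W * (D * x) ≤ K * W * (D * (r11 * lg)) :=
    mul_le_mul_of_nonneg_left (mul_le_mul_of_nonneg_left hx hD) hKW
  calc P * (t : ℝ) ^ 2 ≤ P * (16 * ((s : ℝ) + 1)) ^ 2 := mul_le_mul_of_nonneg_left h2 hP
    _ = 256 * (((s : ℝ) + 1) ^ 2 * P) := by ring
    _ ≤ 256 * (K * W * (D * (r11 * lg))) := by linarith
    _ = 256 * (D * r11) * (K * lg * W) := by ring
    _ ≤ C * (K * lg * W) := mul_le_mul_of_nonneg_right hC (mul_nonneg (mul_nonneg hK hlg) hW)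
    _ = C * K * lg * W := by ring

private theorem VSX_card (a b d e : ℤ) (s t R : ℕ) (ht : 1 ≤ t) (hst : s + 1 ≤ t)
    (h : (b + 1 - a).toNat * (e + 1 - d).toNat ≤ 24 * t ^ 2) :
    (Real.log (#(rf a b d e) + 3) + Real.log (((s + 1) ^ 2 : ℕ) + #(rf a b d e) + 3)) ^ R ≤
      11 ^ R * Real.log ((t : ℝ) + 2) ^ R := by
  have h1 : #(rf a b d e) ≤ 24 * t ^ 2 := by
    unfold rf
    refine Finset.card_image_le.trans ?_
    rw [Finset.card_product, Int.card_Icc, Int.card_Icc]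
    exact h
  have h3 : 27 ≤ (t + 2) ^ 3 := by
    calc 27 = 3 ^ 3 := by norm_num
      _ ≤ (t + 2) ^ 3 := Nat.pow_le_pow_left (by omega) 3
  have h3' : 28 ≤ (t + 2) ^ 4 := by
    calc 28 ≤ 3 ^ 4 := by norm_num
      _ ≤ (t + 2) ^ 4 := Nat.pow_le_pow_left (by omega) 4
  have h4 : t ^ 2 ≤ (t + 2) ^ 2 := Nat.pow_le_pow_left (by omega) 2
  have h5 : 1 ≤ t ^ 2 := Nat.one_le_pow _ _ (by omega)
  have h6 : (s + 1) ^ 2 ≤ t ^ 2 := Nat.pow_le_pow_left hst 2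
  have h2 : #(rf a b d e) + 3 ≤ (t + 2) ^ 5 := by
    calc #(rf a b d e) + 3 ≤ 24 * t ^ 2 + 3 * t ^ 2 := by omega
      _ = 27 * t ^ 2 := by ring
      _ ≤ (t + 2) ^ 3 * (t + 2) ^ 2 := Nat.mul_le_mul h3 h4
      _ = (t + 2) ^ 5 := by rw [← pow_add]
  have h2' : (s + 1) ^ 2 + #(rf a b d e) + 3 ≤ (t + 2) ^ 6 := by
    calc (s + 1) ^ 2 + #(rf a b d e) + 3 ≤ t ^ 2 + 24 * t ^ 2 + 3 * t ^ 2 := by omega
      _ = 28 * t ^ 2 := by ring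
      _ ≤ (t + 2) ^ 4 * (t + 2) ^ 2 := Nat.mul_le_mul h3' h4
      _ = (t + 2) ^ 6 := by rw [← pow_add]
  have h7 : ((#(rf a b d e) : ℝ) + 3) ≤ ((t : ℝ) + 2) ^ 5 := by exact_mod_cast h2
  have h7' : ((((s + 1) ^ 2 : ℕ) : ℝ) + (#(rf a b d e) : ℝ) + 3) ≤ ((t : ℝ) + 2) ^ 6 := by exact_mod_cast h2'
  have h8 : (0 : ℝ) ≤ #(rf a b d e) := Nat.cast_nonneg _
  have h8' : (0 : ℝ) ≤ (((s + 1) ^ 2 : ℕ) : ℝ) := Nat.cast_nonneg _
  have h9 := Real.log_le_log (by linarith) h7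
  have h9' := Real.log_le_log (by linarith) h7'
  rw [Real.log_pow] at h9 h9'
  push_cast at h9 h9'
  have h10 : 0 ≤ Real.log ((#(rf a b d e) : ℝ) + 3) := Real.log_nonneg (by linarith)
  have h10' : 0 ≤ Real.log ((((s + 1) ^ 2 : ℕ) : ℝ) + (#(rf a b d e) : ℝ) + 3) := Real.log_nonneg (by linarith)
  rw [← mul_pow]
  refine pow_le_pow_left₀ (add_nonneg h10 h10') ?_ R
  push_cast
  linarith

private theorem VSX_rf_mem {a b d e : ℤ} {z : V} (hz : z ∈ rf a b d e) :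
    a - 1 ≤ z.1 ∧ z.1 ≤ b ∧ d ≤ z.2 ∧ z.2 ≤ e := by
  unfold rf at hz
  obtain ⟨v, hv, rfl⟩ := Finset.mem_image.1 hz
  rw [Finset.mem_product, Finset.mem_Icc, Finset.mem_Icc] at hv
  have h7 := br_fst v
  have h8 := br_snd v
  omega

private theorem VSX_R (mno : MNO_stmt) (shi : SHI_stmt) (shp : SHP_stmt) (C0 : ℝ) (hC0 : 0 < C0) (L : ℕ)
    (hz : ∀ (o k : Bool) (a b d e : ℤ), a ≤ b → d ≤ e →
      (o = true → (L : ℤ) ≤ e - d ∧ b - a ≤ 4 * (e - d)) → (o = false → (L : ℤ) ≤ b - a ∧ e - d ≤ 4 * (b - a)) →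
      ∃ Z : (V → Bool) → Finset V, (∀ β, Z β ⊆ rf a b d e) ∧ (∀ z, CD {β | z ∈ Z β} (rf a b d e)) ∧
        (∀ (β : V → Bool) (S : Finset V), crs o (col β) k (til S) a b d e → ∃ z ∈ Z β, z ∈ S) ∧
        ∑ z ∈ rf a b d e, Pr {β | z ∈ Z β} ≤ C0) (R : ℕ) (C1 : ℝ) (hC1 : 0 < C1)
    (hplr : ∀ (U : Finset V) (p : V → ℝ) (ℓ : ℝ), 0 ≤ ℓ → (∀ z ∈ U, 0 ≤ p z ∧ p z ≤ 1) →
      ∑ z ∈ U, p z * (Real.log (1 / p z) + ℓ) ^ R ≤ C1 * (∑ z ∈ U, p z + 1) * (Real.log (#U + 3) + ℓ) ^ R)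
    (S : (V → Bool) → Finset V) (Ω : Finset V) (w : V → ℝ) (K : ℝ) (k : Bool) (t : ℕ) (a d : ℤ) (ht : 1 ≤ t)
    (hRS : RS S Ω w R K) :
    Pr {β | crs true (col β) k (til (S β)) a (a + 6 * t) d (d + 2 * t)} ≤
      (256 * (C1 * (C0 + 1) * 11 ^ R) + (L : ℝ) ^ 2 * 2 ^ R) * K * Real.log (t + 2) ^ R *
        (∑ v ∈ nr Ω a (a + 6 * t) d (d + 2 * t) t, w v) / (t : ℝ) ^ 2 ∧
    Pr {β | crs false (col β) k (til (S β)) a (a + 2 * t) d (d + 6 * t)} ≤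
      (256 * (C1 * (C0 + 1) * 11 ^ R) + (L : ℝ) ^ 2 * 2 ^ R) * K * Real.log (t + 2) ^ R *
        (∑ v ∈ nr Ω a (a + 2 * t) d (d + 6 * t) t, w v) / (t : ℝ) ^ 2 := by
  have hD : 0 < C1 * (C0 + 1) := mul_pos hC1 (by linarith)
  have h11 : (0 : ℝ) < 11 ^ R := by positivity
  have h2R : (0 : ℝ) < 2 ^ R := by positivity
  have hLsq : (0 : ℝ) ≤ (L : ℝ) ^ 2 * 2 ^ R := mul_nonneg (sq_nonneg _) h2R.le
  have hDD : 0 < 256 * (C1 * (C0 + 1) * 11 ^ R) := mul_pos (by norm_num) (mul_pos hD h11)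
  have hlg := VSX_logt t ht
  have hlgR : 0 ≤ Real.log ((t : ℝ) + 2) ^ R := pow_nonneg (by linarith) R
  have hK : 0 ≤ K := hRS.2.2.2.2.2.1
  have hw : ∀ v, 0 ≤ w v := hRS.2.2.2.1
  by_cases htL : t < L
  · have htL' : (t : ℝ) ≤ (L : ℝ) := by exact_mod_cast htL.le
    constructor
    · exact VSX_smallfin _ _ L _ _ _ _ _ t ht htL' (by linarith) hK (Finset.sum_nonneg fun v _ => hw v) hlgR
        (pow_nonneg (Real.log_nonneg (by norm_num)) R) (VSX_log4 t R ht) (VSX_small R true k S Ω w K hRS _ _ _ _ t ht)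
    · exact VSX_smallfin _ _ L _ _ _ _ _ t ht htL' (by linarith) hK (Finset.sum_nonneg fun v _ => hw v) hlgR
        (pow_nonneg (Real.log_nonneg (by norm_num)) R) (VSX_log4 t R ht) (VSX_small R false k S Ω w K hRS _ _ _ _ t ht)
  have htL2 : L ≤ t := Nat.le_of_not_lt htL
  obtain ⟨s, hsd⟩ : ∃ s, s = t / 16 := ⟨_, rfl⟩
  have hs : 16 * s ≤ t := by rw [hsd]; exact Nat.mul_div_le t 16
  have hs2 : t ≤ 16 * (s + 1) := by omega
  have hst : s + 1 ≤ t := by omega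
  constructor
  · obtain ⟨Z, hZ1, hZ2, hZ3, hZ4⟩ := hz true k a (a + 6 * t + 2 * s) (d + 2 * s) (d + 2 * t) (by omega) (by omega)
      (fun _ => ⟨by omega, by omega⟩) (fun h => absurd h (by decide))
    refine VSX_fin _ _ K (C1 * (C0 + 1)) _ _ (11 ^ R) _ s t ht hs2 (Finset.sum_nonneg fun v _ => hw v) hK
      (VSX_nonneg _) hD.le hlgR ?_ (by linarith)
      (VSX_core shi shp R C1 hC1 hplr C0 true k S Ω w K hRS a (a + 6 * t) d (d + 2 * t) a (a + 6 * t + 2 * s)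
        (d + 2 * s) (d + 2 * t) s t ?_ ?_ Z hZ1 hZ2 hZ3 hZ4)
    · refine VSX_card _ _ _ _ s t R ht hst ?_
      have h1 : (a + 6 * t + 2 * s + 1 - a).toNat ≤ 8 * t := by omega
      have h2 : (d + 2 * t + 1 - (d + 2 * s)).toNat ≤ 3 * t := by omega
      calc _ ≤ (8 * t) * (3 * t) := Nat.mul_le_mul h1 h2
        _ = 24 * t ^ 2 := by ring
    · intro c W i j hi0 hi hj0 hj h
      exact (mno c k W (a + 2 * i) (a + 6 * t + 2 * i) (d + 2 * j) (d + 2 * t + 2 * j)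
        a (a + 6 * t + 2 * s) (d + 2 * s) (d + 2 * t)).1 (by omega) (by omega) (by omega) (by omega) (by omega) h
    · intro z hz' i j hi0 hi hj0 hj
      have h1 := VSX_rf_mem hz'
      refine ⟨by omega, by omega, by omega, by omega⟩
  · obtain ⟨Z, hZ1, hZ2, hZ3, hZ4⟩ := hz false k (a + 2 * s) (a + 2 * t) d (d + 6 * t + 2 * s) (by omega) (by omega)
      (fun h => absurd h (by decide)) (fun _ => ⟨by omega, by omega⟩)
    refine VSX_fin _ _ K (C1 * (C0 + 1)) _ _ (11 ^ R) _ s t ht hs2 (Finset.sum_nonneg fun v _ => hw v) hK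
      (VSX_nonneg _) hD.le hlgR ?_ (by linarith)
      (VSX_core shi shp R C1 hC1 hplr C0 false k S Ω w K hRS a (a + 2 * t) d (d + 6 * t) (a + 2 * s) (a + 2 * t) d
        (d + 6 * t + 2 * s) s t ?_ ?_ Z hZ1 hZ2 hZ3 hZ4)
    · refine VSX_card _ _ _ _ s t R ht hst ?_
      have h1 : (a + 2 * t + 1 - (a + 2 * s)).toNat ≤ 3 * t := by omega
      have h2 : (d + 6 * t + 2 * s + 1 - d).toNat ≤ 8 * t := by omega
      calc _ ≤ (3 * t) * (8 * t) := Nat.mul_le_mul h1 h2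
        _ = 24 * t ^ 2 := by ring
    · intro c W i j hi0 hi hj0 hj h
      exact (mno c k W (a + 2 * i) (a + 2 * t + 2 * i) (d + 2 * j) (d + 6 * t + 2 * j)
        (a + 2 * s) (a + 2 * t) d (d + 6 * t + 2 * s)).2 (by omega) (by omega) (by omega) (by omega) (by omega) h
    · intro z hz' i j hi0 hi hj0 hj
      have h1 := VSX_rf_mem hz'
      refine ⟨by omega, by omega, by omega, by omega⟩

private theorem VSX_weak (P W K lg C0 L : ℝ) (R t : ℕ) (hC0 : 0 < C0) (hK : 0 ≤ K) (hW : 0 ≤ W) (hlg : 0 ≤ lg)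
    (h : P ≤ (256 * ((2 * (R : ℝ) + 3) ^ R * (C0 + 1) * 11 ^ R) + L ^ 2 * 2 ^ R) * K * lg ^ R * W / (t : ℝ) ^ 2) :
    P ≤ (256 * (C0 + 1) + L ^ 2 + 33) * K * ((256 * (C0 + 1) + L ^ 2 + 33) * ((R + 1) * lg)) ^ R * W / (t : ℝ) ^ 2 := by
  have hR : (0 : ℝ) ≤ R := Nat.cast_nonneg _
  have hL : 0 ≤ L ^ 2 := sq_nonneg _
  have hC : (33 : ℝ) ≤ 256 * (C0 + 1) + L ^ 2 + 33 := by linarith
  have e1 : (2 * (R : ℝ) + 3) ^ R * 11 ^ R ≤ (33 * ((R : ℝ) + 1)) ^ R := by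
    rw [← mul_pow]
    exact pow_le_pow_left₀ (by positivity) (by linarith) R
  have e2 : (2 : ℝ) ^ R ≤ (33 * ((R : ℝ) + 1)) ^ R := pow_le_pow_left₀ (by norm_num) (by linarith) R
  have e3 : (33 * ((R : ℝ) + 1)) ^ R ≤ ((256 * (C0 + 1) + L ^ 2 + 33) * ((R : ℝ) + 1)) ^ R :=
    pow_le_pow_left₀ (by positivity) (mul_le_mul_of_nonneg_right hC (by linarith)) R
  have e4 : (0 : ℝ) ≤ (33 * ((R : ℝ) + 1)) ^ R := by positivity
  have e5 : 256 * ((2 * (R : ℝ) + 3) ^ R * (C0 + 1) * 11 ^ R) + L ^ 2 * 2 ^ R ≤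
      (256 * (C0 + 1) + L ^ 2 + 33) * ((256 * (C0 + 1) + L ^ 2 + 33) * ((R : ℝ) + 1)) ^ R := by
    calc 256 * ((2 * (R : ℝ) + 3) ^ R * (C0 + 1) * 11 ^ R) + L ^ 2 * 2 ^ R
        = 256 * (C0 + 1) * ((2 * (R : ℝ) + 3) ^ R * 11 ^ R) + L ^ 2 * 2 ^ R := by ring
      _ ≤ 256 * (C0 + 1) * (33 * ((R : ℝ) + 1)) ^ R + L ^ 2 * (33 * ((R : ℝ) + 1)) ^ R :=
          add_le_add (mul_le_mul_of_nonneg_left e1 (by linarith)) (mul_le_mul_of_nonneg_left e2 hL)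
      _ ≤ (256 * (C0 + 1) + L ^ 2 + 33) * (33 * ((R : ℝ) + 1)) ^ R := by
          have : 0 ≤ 33 * (33 * ((R : ℝ) + 1)) ^ R := by positivity
          linarith
      _ ≤ _ := mul_le_mul_of_nonneg_left e3 (by linarith)
  have hX : 0 ≤ lg ^ R * (K * W) / (t : ℝ) ^ 2 :=
    div_nonneg (mul_nonneg (pow_nonneg hlg R) (mul_nonneg hK hW)) (sq_nonneg _)
  calc P ≤ _ := h
    _ = (256 * ((2 * (R : ℝ) + 3) ^ R * (C0 + 1) * 11 ^ R) + L ^ 2 * 2 ^ R) * (lg ^ R * (K * W) / (t : ℝ) ^ 2) := by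
        ring
    _ ≤ ((256 * (C0 + 1) + L ^ 2 + 33) * ((256 * (C0 + 1) + L ^ 2 + 33) * ((R : ℝ) + 1)) ^ R) *
        (lg ^ R * (K * W) / (t : ℝ) ^ 2) := mul_le_mul_of_nonneg_right e5 hX
    _ = _ := by
        rw [show (256 * (C0 + 1) + L ^ 2 + 33) * (((R : ℝ) + 1) * lg) =
          ((256 * (C0 + 1) + L ^ 2 + 33) * ((R : ℝ) + 1)) * lg by ring, mul_pow _ lg]
        ring

theorem VSX (mno : MNO_stmt) (shi : SHI_stmt) (shp : SHP_stmt) (zch : ZCH_stmt) (plx : PLX_stmt) : VSX_stmt := by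
  obtain ⟨C0, hC0, L, hL, hz⟩ := zch
  have hL2 : (0 : ℝ) ≤ (L : ℝ) ^ 2 := sq_nonneg _
  refine ⟨256 * (C0 + 1) + (L : ℝ) ^ 2 + 33, by linarith, ?_⟩
  intro R S Ω w K k t a d ht hRS
  have hR : (0 : ℝ) ≤ R := Nat.cast_nonneg _
  have hplr : ∀ (U : Finset V) (p : V → ℝ) (ℓ : ℝ), 0 ≤ ℓ → (∀ z ∈ U, 0 ≤ p z ∧ p z ≤ 1) →
      ∑ z ∈ U, p z * (Real.log (1 / p z) + ℓ) ^ R ≤
        (2 * (R : ℝ) + 3) ^ R * (∑ z ∈ U, p z + 1) * (Real.log (#U + 3) + ℓ) ^ R := by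
    intro U p ℓ h1 h2
    refine (plx R U p ℓ h1 h2).trans (le_of_eq ?_)
    rw [mul_pow]
    ring
  have key := VSX_R mno shi shp C0 hC0 L hz R ((2 * (R : ℝ) + 3) ^ R) (by positivity) hplr S Ω w K k t a d ht hRS
  have hlg : (0 : ℝ) ≤ Real.log ((t : ℝ) + 2) := by
    have := VSX_logt t ht
    linarith
  have hK : 0 ≤ K := hRS.2.2.2.2.2.1
  have hw : ∀ v, 0 ≤ w v := hRS.2.2.2.1
  exact ⟨VSX_weak _ _ K _ C0 L R t hC0 hK (Finset.sum_nonneg fun v _ => hw v) hlg key.1,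
    VSX_weak _ _ K _ C0 L R t hC0 hK (Finset.sum_nonneg fun v _ => hw v) hlg key.2⟩

end TP.TW
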